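import Pool.Agent.Q145.ART.Stm

set_option autoImplicit false

/-! # Project ART, job EXP: expansion of the indicators of the three types in characters -/

namespace Pool.Agent.Q145.ART

open Finset Filter
open Pool.Agent.H730R2.AA (NT rho)
open Pool.Agent.H730R2.AA.Exp

namespace EXPa

variable {p : ℕ} [Fact p.Prime]

lemma sum_split (f : DirichletCharacter ℂ p → ℂ) : ∑ χ : DirichletCharacter ℂ p, f χ = f 1 + ∑ χ ∈ NT p, f χ := by
  classical
  rw [← add_sum_erase univ _ (mem_univ (1 : DirichletCharacter ℂ p))]
  congr 1
  refine sum_congr ?_ fun _ _ => rfl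
  unfold NT
  ext χ
  simp

omit [Fact p.Prime] in
lemma NT_sum_le (f : DirichletCharacter ℂ p → ℂ) : ∑ χ ∈ NT p, ‖f χ‖ ≤ ∑ χ : DirichletCharacter ℂ p, ‖f χ‖ :=
  sum_le_sum_of_subset_of_nonneg (subset_univ _) fun _ _ _ => norm_nonneg _

lemma exp_zero (a : ℕ) : (if orderOf (a : ZMod p) = p - 1 then (1 : ℂ) else 0) =
    (if p ∣ a then 0 else ((rho p : ℝ) : ℂ)) + ∑ χ ∈ NT p, fc gen χ * χ (a : ZMod p) := by
  classical
  have hN := N_pos (p := p)
  by_cases hm : p ∣ a
  · have hm0 : (a : ZMod p) = 0 := (ZMod.natCast_eq_zero_iff a p).2 hm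
    have h1 : orderOf (0 : ZMod p) = 0 := by
      rw [orderOf_eq_zero_iff']
      intro n hn
      rw [zero_pow hn.ne']
      exact zero_ne_one
    rw [hm0, h1, if_neg hN.ne, if_pos hm, zero_add]
    symm
    refine sum_eq_zero fun χ _ => ?_
    rw [MulChar.map_zero, mul_zero]
  · have hm0 : IsUnit (a : ZMod p) := by
      rw [isUnit_iff_ne_zero, Ne, ZMod.natCast_eq_zero_iff]
      exact hm
    obtain ⟨u, hu⟩ := hm0
    have hinv := fc_inv (p := p) gen u
    rw [sum_split, fc_gen_one, MulChar.one_apply_coe, mul_one, hu] at hinv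
    rw [if_neg hm, hinv, ← hu, orderOf_units]
    rfl

end EXPa

open EXPa

theorem t_EXP : S_EXP := by
  classical
  intro p _ hp t ht
  have hp2 : p ≠ 2 := by omega
  by_cases h0 : t = 0
  · subst h0
    refine ⟨fc gen, fun a => ?_, ?_⟩
    · have h := exp_zero (p := p) a
      have hr : rr p 0 = rho p := by simp [rr, rho]
      have hT : Ty p 0 a ↔ orderOf (a : ZMod p) = p - 1 := by simp [Ty]
      rw [hT, hr]
      constructor
      · intro h1
        rw [if_pos h1] at h
        exact h
      · intro h1
        rw [if_neg h1] at h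
        exact h
    · exact (NT_sum_le _).trans fc_gen_sum
  · have ht1 : t = 1 ∨ t = -1 := by
      rcases ht with h | h
      · exact absurd h h0
      · exact h
    have hqn : qc p ∈ NT p := by
      unfold NT
      simp [qc_ne hp2]
    refine ⟨fun χ => if χ = qc p then (t : ℂ) / 2 else 0, fun a => ?_, ?_⟩
    · have hs : ∑ χ ∈ NT p, (if χ = qc p then (t : ℂ) / 2 else 0) * χ (a : ZMod p) =
          (t : ℂ) / 2 * ((jacobiSym a p : ℤ) : ℂ) := by
        rw [sum_eq_single (qc p)]
        · rw [if_pos rfl]
          have := qc_apply (p := p) (a : ℤ)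
          rw [← this]
          push_cast
          rfl
        · intro χ _ hχ
          rw [if_neg hχ, zero_mul]
        · intro h
          exact absurd hqn h
      have hT : Ty p t a ↔ jacobiSym a p = t := by simp [Ty, h0]
      have hr : rr p t = 1 / 2 := by simp [rr, h0]
      rw [hT, hr]
      simp only at hs ⊢
      rw [hs]
      by_cases hm : p ∣ a
      · have hj : jacobiSym a p = 0 := by
          rw [← jacobiSym.legendreSym.to_jacobiSym, legendreSym.eq_zero_iff]
          push_cast
          exact (ZMod.natCast_eq_zero_iff a p).2 hm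
        rw [hj, if_pos hm]
        refine ⟨fun h => absurd h.symm h0, fun _ => by simp⟩
      · have hj : jacobiSym a p = 1 ∨ jacobiSym a p = -1 := by
          rw [← jacobiSym.legendreSym.to_jacobiSym]
          apply legendreSym.eq_one_or_neg_one
          push_cast
          rw [Ne, ZMod.natCast_eq_zero_iff]
          exact hm
        rw [if_neg hm]
        rcases ht1 with rfl | rfl
        · rcases hj with hj | hj
          · rw [hj]
            refine ⟨fun _ => ?_, fun h => absurd rfl h⟩
            push_cast; norm_num
          · rw [hj]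
            refine ⟨fun h => absurd h (by decide), fun _ => ?_⟩
            push_cast; norm_num
        · rcases hj with hj | hj
          · rw [hj]
            refine ⟨fun h => absurd h (by decide), fun _ => ?_⟩
            push_cast; norm_num
          · rw [hj]
            refine ⟨fun _ => ?_, fun h => absurd rfl h⟩
            push_cast; norm_num
    · have hs : ∑ χ ∈ NT p, ‖(if χ = qc p then (t : ℂ) / 2 else 0)‖ = 1 / 2 := by
        rw [sum_eq_single (qc p)]
        · rw [if_pos rfl]
          rcases ht1 with rfl | rfl <;> norm_num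
        · intro χ _ hχ
          rw [if_neg hχ, norm_zero]
        · intro h
          exact absurd hqn h
      rw [hs]
      unfold tt
      have h1 : 1 ≤ (p - 1).divisors.card := by
        rw [Nat.one_le_iff_ne_zero, Ne, card_eq_zero, Nat.divisors_eq_empty]
        omega
      have h2 : (1 : ℝ) ≤ ((p - 1).divisors.card : ℝ) := by exact_mod_cast h1
      linarith

end Pool.Agent.Q145.ART
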