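import Pool.Agent.Q145.ART.Stm

set_option autoImplicit false

/-! # Project ART, job ONE: the number of elements of one type -/

namespace Pool.Agent.Q145.ART

open Finset Filter
open Pool.Agent.H730R2.AA (NT NT_prim)

namespace ONEa

lemma rr_nonneg (p : ℕ) (t : ℤ) : 0 ≤ rr p t := by
  unfold rr
  split_ifs <;> positivity

lemma rr_le_one (p : ℕ) (t : ℤ) : rr p t ≤ 1 := by
  unfold rr
  split_ifs
  · refine div_le_one_of_le₀ ?_ (by positivity)
    exact_mod_cast Nat.totient_le _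
  · norm_num

lemma one_le_tt (p : ℕ) (hp : 2 < p) : 1 ≤ tt p := by
  unfold tt
  have h1 : 1 ≤ (p - 1).divisors.card := by
    rw [Nat.one_le_iff_ne_zero, Ne, card_eq_zero, Nat.divisors_eq_empty]
    omega
  exact_mod_cast h1

lemma card_mult (N p : ℕ) (E : Finset ℕ) (hE : E ⊆ Icc 1 N) :
    ((E.filter (fun a => p ∣ a)).card : ℝ) ≤ (N : ℝ) / p := by
  have h1 : (E.filter (fun a => p ∣ a)).card ≤ N / p := by
    calc (E.filter (fun a => p ∣ a)).card ≤ ((Ioc 0 N).filter (fun a => p ∣ a)).card := by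
          refine card_le_card fun a ha => ?_
          rw [mem_filter] at ha ⊢
          have := hE ha.1
          rw [mem_Icc] at this
          exact ⟨mem_Ioc.2 ⟨by omega, this.2⟩, ha.2⟩
      _ = N / p := Nat.Ioc_filter_dvd_card_eq_div N p
  calc ((E.filter (fun a => p ∣ a)).card : ℝ) ≤ ((N / p : ℕ) : ℝ) := by exact_mod_cast h1
    _ ≤ (N : ℝ) / p := Nat.cast_div_le

end ONEa

open ONEa

theorem t_ONE : S_ONE := by
  classical
  intro hEXP N p E t V hp hp2 hE ht hV hCB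
  have : Fact p.Prime := ⟨hp⟩
  obtain ⟨β, hβ, hsum⟩ := hEXP p hp2 t ht
  have htt := one_le_tt p hp2
  have hr0 := rr_nonneg p t
  have hr1 := rr_le_one p t
  -- the count as a sum of indicators
  have h1 : ((nT E t p : ℝ) : ℂ) = ∑ a ∈ E, (if Ty p t a then (1 : ℂ) else 0) := by
    unfold nT num
    rw [← sum_filter, sum_const, nsmul_eq_mul, mul_one]
    push_cast
    congr 2
  have h2 : ∀ a ∈ E, (if Ty p t a then (1 : ℂ) else 0) =
      (if p ∣ a then 0 else ((rr p t : ℝ) : ℂ)) + ∑ χ ∈ NT p, β χ * χ (a : ZMod p) := by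
    intro a _
    by_cases h : Ty p t a
    · rw [if_pos h]; exact (hβ a).1 h
    · rw [if_neg h]; exact (hβ a).2 h
  rw [sum_congr rfl h2, sum_add_distrib] at h1
  have h3 : ∑ a ∈ E, (if p ∣ a then 0 else ((rr p t : ℝ) : ℂ)) =
      (((rr p t) * ((E.card : ℝ) - ((E.filter (fun a => p ∣ a)).card : ℝ)) : ℝ) : ℂ) := by
    have e1 : ∑ a ∈ E, (if p ∣ a then 0 else ((rr p t : ℝ) : ℂ)) =
        ∑ a ∈ E, (((rr p t : ℝ) : ℂ) - if p ∣ a then ((rr p t : ℝ) : ℂ) else 0) := by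
      refine sum_congr rfl fun a _ => ?_
      by_cases h : p ∣ a
      · rw [if_pos h, if_pos h, sub_self]
      · rw [if_neg h, if_neg h, sub_zero]
    rw [e1, sum_sub_distrib, ← sum_filter, sum_const, sum_const, nsmul_eq_mul, nsmul_eq_mul]
    push_cast
    ring
  have h4 : ∑ a ∈ E, ∑ χ ∈ NT p, β χ * χ (a : ZMod p) = ∑ χ ∈ NT p, β χ * ∑ a ∈ E, χ (a : ZMod p) := by
    rw [sum_comm]
    exact sum_congr rfl fun χ _ => (mul_sum _ _ _).symm
  have h5 : ‖∑ χ ∈ NT p, β χ * ∑ a ∈ E, χ (a : ZMod p)‖ ≤ tt p * V := by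
    calc ‖∑ χ ∈ NT p, β χ * ∑ a ∈ E, χ (a : ZMod p)‖
        ≤ ∑ χ ∈ NT p, ‖β χ * ∑ a ∈ E, χ (a : ZMod p)‖ := norm_sum_le _ _
      _ ≤ ∑ χ ∈ NT p, ‖β χ‖ * V := by
          refine sum_le_sum fun χ hχ => ?_
          rw [norm_mul]
          exact mul_le_mul_of_nonneg_left (hCB χ (NT_prim p hp χ hχ)) (norm_nonneg _)
      _ = (∑ χ ∈ NT p, ‖β χ‖) * V := (sum_mul _ _ _).symm
      _ ≤ tt p * V := mul_le_mul_of_nonneg_right hsum hV
  rw [h3, h4] at h1
  have h6 : ((nT E t p - rr p t * (E.card : ℝ) : ℝ) : ℂ) =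
      ((-(rr p t * ((E.filter (fun a => p ∣ a)).card : ℝ)) : ℝ) : ℂ) + ∑ χ ∈ NT p, β χ * ∑ a ∈ E, χ (a : ZMod p) := by
    rw [Complex.ofReal_sub, h1]
    push_cast
    ring
  have h7 := card_mult N p E hE
  have h8 : |nT E t p - rr p t * (E.card : ℝ)| ≤ (N : ℝ) / p + tt p * V := by
    rw [← Real.norm_eq_abs, ← Complex.norm_real, h6]
    refine (norm_add_le _ _).trans (add_le_add ?_ h5)
    rw [Complex.norm_real, norm_neg, Real.norm_of_nonneg (by positivity)]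
    calc rr p t * ((E.filter (fun a => p ∣ a)).card : ℝ) ≤ 1 * ((E.filter (fun a => p ∣ a)).card : ℝ) := by gcongr
      _ ≤ _ := by rw [one_mul]; exact h7
  have h9 : 0 ≤ (N : ℝ) / p := by positivity
  calc |nT E t p - rr p t * (E.card : ℝ)| ≤ (N : ℝ) / p + tt p * V := h8
    _ ≤ 2 * tt p * (V + (N : ℝ) / p) := by nlinarith [mul_nonneg (by linarith : (0:ℝ) ≤ tt p) hV, mul_nonneg (by linarith : (0:ℝ) ≤ tt p - 1) h9]

end Pool.Agent.Q145.ART
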